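import Mathlib
import Pool.Agent.N311.SH.Stm

/-! Project SH (helper311), part KL: homeomorphisms of the sphere fixing 0 can be made equal to
`z` or `conj z` near 0. -/

set_option autoImplicit false
open Set Metric Filter Topology MeasureTheory
open scoped OnePoint

namespace Pool.Agent.N296.SH

open Pool.Agent.N311.SH

theorem res_fun (g : Sph ≃ₜ Sph) (hg : g ∞ = ∞) :
    ∃ k : ℂ → ℂ, Continuous k ∧ ∀ z : ℂ, g (z : Sph) = ((k z : ℂ) : Sph) := by
  have h1 : ∀ z : ℂ, ∃ w : ℂ, (w : Sph) = g (z : Sph) := by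
    intro z
    rw [← OnePoint.ne_infty_iff_exists]
    intro h
    rw [← hg] at h
    exact OnePoint.coe_ne_infty z (g.injective h)
  choose k hk using h1
  refine ⟨k, ?_, fun z => (hk z).symm⟩
  rw [OnePoint.isOpenEmbedding_coe.isEmbedding.continuous_iff]
  have : ((↑) : ℂ → Sph) ∘ k = fun z : ℂ => g (z : Sph) := by
    funext z
    exact hk z
  rw [this]
  exact g.continuous.comp OnePoint.continuous_coe

theorem res (g : Sph ≃ₜ Sph) (hg : g ∞ = ∞) : ∃ k : ℂ ≃ₜ ℂ, ∀ z : ℂ, g (z : Sph) = ((k z : ℂ) : Sph) := by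
  obtain ⟨k, hk, hk'⟩ := res_fun g hg
  obtain ⟨l, hl, hl'⟩ := res_fun g.symm (by
    rw [Homeomorph.symm_apply_eq]
    exact hg.symm)
  have hL : ∀ z, l (k z) = z := by
    intro z
    apply OnePoint.coe_injective
    rw [← hl', ← hk', Homeomorph.symm_apply_apply]
  have hR : ∀ z, k (l z) = z := by
    intro z
    apply OnePoint.coe_injective
    rw [← hk', ← hl', Homeomorph.apply_symm_apply]
  exact ⟨⟨⟨k, l, hL, hR⟩, hk, hl⟩, hk'⟩

theorem norm_form (f : Sph ≃ₜ Sph) (hf : f ((0 : ℂ) : Sph) = ((0 : ℂ) : Sph)) :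
    ∃ (f' : ℂ ≃ₜ ℂ) (M : ℂ → ℂ) (r : ℝ), 0 < r ∧ f' 0 = 0 ∧ AnalyticAt ℂ M 0 ∧ M 0 = 0 ∧
      deriv M 0 ≠ 0 ∧ ∀ z : ℂ, ‖f' z‖ < r → f (z : Sph) = ((M (f' z) : ℂ) : Sph) := by
  by_cases hq : f ∞ = ∞
  · obtain ⟨k, hk⟩ := res f hq
    refine ⟨k, id, 1, one_pos, ?_, analyticAt_id, rfl, by simp, fun z _ => hk z⟩
    apply OnePoint.coe_injective
    rw [← hk, hf]
  · obtain ⟨b, hb⟩ := OnePoint.ne_infty_iff_exists.1 hq
    have hb0 : b ≠ 0 := by
      rintro rfl
      rw [← hf] at hb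
      exact OnePoint.infty_ne_coe _ (f.injective hb).symm
    obtain ⟨k, hk⟩ := res (J * tr (-b⁻¹) * J * f) (by
      show J (tr (-b⁻¹) (J (f ∞))) = ∞
      rw [← hb, J_coe hb0, tr_coe, add_neg_cancel, J_zero])
    have hk' : ∀ z : ℂ, f (z : Sph) = J (tr b⁻¹ (J ((k z : ℂ) : Sph))) := by
      intro z
      rw [← hk z]
      show _ = J (tr b⁻¹ (J (J (tr (-b⁻¹) (J (f (z : Sph)))))))
      rw [J_J]
      have : ∀ x : Sph, tr b⁻¹ (tr (-b⁻¹) x) = x := by
        intro x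
        induction x using OnePoint.rec with
        | infty => rfl
        | coe z => rw [tr_coe, tr_coe, neg_add_cancel_right]
      rw [this, J_J]
    refine ⟨k, fun w => w / (1 + w / b), ‖b‖, norm_pos_iff.2 hb0, ?_, ?_, by simp, ?_, ?_⟩
    · apply OnePoint.coe_injective
      rw [← hk]
      show J (tr (-b⁻¹) (J (f ((0 : ℂ) : Sph)))) = _
      rw [hf, J_zero, tr_infty, J_infty]
    · refine AnalyticAt.div analyticAt_id ?_ (by simp)
      exact analyticAt_const.add (analyticAt_id.div analyticAt_const hb0)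
    · have h1 : HasDerivAt (fun w : ℂ => w / (1 + w / b))
          ((1 * (1 + 0 / b) - 0 * (0 + 1 / b)) / (1 + 0 / b) ^ 2) 0 := by
        have h2 : HasDerivAt (fun w : ℂ => 1 + w / b) (0 + 1 / b) 0 :=
          (hasDerivAt_const (0 : ℂ) (1 : ℂ)).add ((hasDerivAt_id (0 : ℂ)).div_const b)
        exact (hasDerivAt_id (0 : ℂ)).div h2 (by simp)
      rw [h1.deriv]
      simp
    · intro z hz
      rw [hk' z]
      by_cases h0 : k z = 0
      · rw [h0, J_zero, tr_infty, J_infty]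
        simp
      · have hsum : k z + b ≠ 0 := by
          intro h
          have : k z = -b := by linear_combination h
          rw [this, norm_neg] at hz
          exact lt_irrefl _ hz
        have h2 : (k z)⁻¹ + b⁻¹ ≠ 0 := by
          intro h
          apply hsum
          field_simp at h
          linear_combination h
        rw [J_coe h0, tr_coe, J_coe h2]
        congr 1
        have h3 : 1 + k z / b ≠ 0 := by
          intro h
          apply hsum
          field_simp at h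
          linear_combination h
        field_simp
        try ring

/-- KL -/
theorem kl (h1 : S_KLC) (h2 : S_LIN) : S_KL := by
  intro f hf ε hε
  obtain ⟨f', M, r, hr, hf'0, hM, hM0, hM', hfM⟩ := norm_form f hf
  obtain ⟨k, hk, δ, e, φ, hδ, hφ, hφ0, hφ', hkφ⟩ := h1 f' hf'0 ε hε
  have hM2 : AnalyticAt ℂ M (φ 0) := by rw [hφ0]; exact hM
  have hφ1 : AnalyticAt ℂ (M ∘ φ) 0 := hM2.comp hφ
  have hφ1' : deriv (M ∘ φ) 0 ≠ 0 := by
    rw [deriv_comp 0 hM2.differentiableAt hφ.differentiableAt, hφ0]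
    exact mul_ne_zero hM' hφ'
  obtain ⟨k2, hk2, hk20, δ2, hδ2, hk2φ⟩ := h2 (M ∘ φ) hφ1
    (by show M (φ 0) = 0; rw [hφ0, hM0]) hφ1' ε hε
  have hk0 : k 0 = 0 := by
    apply f'.injective
    have := hkφ 0 (by rw [norm_zero]; exact hδ)
    rw [cj_zero, hφ0] at this
    rw [this, hf'0]
  -- `φ` is small near `0`
  obtain ⟨δ1, hδ1, hφs⟩ : ∃ δ1 : ℝ, 0 < δ1 ∧ ∀ z : ℂ, ‖z‖ < δ1 → ‖φ z‖ < r := by
    have h3 := Metric.continuousAt_iff.1 hφ.continuousAt r hr
    obtain ⟨δ1, hδ1, h4⟩ := h3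
    refine ⟨δ1, hδ1, fun z hz => ?_⟩
    have := h4 (x := z) (by rw [dist_zero_right]; exact hz)
    rwa [hφ0, dist_zero_right] at this
  obtain ⟨δ3, hδ3, hk2s⟩ : ∃ δ3 : ℝ, 0 < δ3 ∧ ∀ z : ℂ, ‖z‖ < δ3 → ‖k2 z‖ < min δ δ1 := by
    have h3 := Metric.continuousAt_iff.1 (k2.continuous.continuousAt (x := 0)) (min δ δ1)
      (lt_min hδ hδ1)
    obtain ⟨δ3, hδ3, h4⟩ := h3
    refine ⟨δ3, hδ3, fun z hz => ?_⟩
    have := h4 (x := z) (by rw [dist_zero_right]; exact hz)
    rwa [hk20, dist_zero_right] at this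
  refine ⟨(cjH e).trans (k2.trans ((cjH e).trans k)), ?_, ?_, min δ2 δ3, e, lt_min hδ2 hδ3, ?_⟩
  · intro z hz
    show k (cj e (k2 (cj e z))) = z
    rw [hk2 _ (by rw [norm_cj]; exact hz), cj_cj, hk z hz]
  · show k (cj e (k2 (cj e 0))) = 0
    rw [cj_zero, hk20, cj_zero, hk0]
  · intro z hz
    show f ((k (cj e (k2 (cj e z))) : ℂ) : Sph) = _
    have hz2 : ‖cj e z‖ < δ2 := by rw [norm_cj]; exact hz.trans_le (min_le_left _ _)
    have hz3 : ‖cj e z‖ < δ3 := by rw [norm_cj]; exact hz.trans_le (min_le_right _ _)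
    have h5 := hk2s _ hz3
    have h6 : f' (k (cj e (k2 (cj e z)))) = φ (k2 (cj e z)) := by
      rw [hkφ _ (by rw [norm_cj]; exact h5.trans_le (min_le_left _ _)), cj_cj]
    rw [hfM _ (by rw [h6]; exact hφs _ (h5.trans_le (min_le_right _ _))), h6]
    congr 1
    exact hk2φ _ hz2

end Pool.Agent.N296.SH
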